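import Pool.Agent.H525R4.Mono.Disjoint

/-!
# k-SetDisjointness: about `(N / t) ^ k` space for monotone data structures with `t` probes

A family of `m` subsets of a universe with `n` elements, `m * n ≤ N` (so of total size at most `N`),
is preprocessed.  A monotone data structure (`DisjDS`) has `s` cells; every cell contains an
arbitrary nondecreasing real function of the family (unlimited preprocessing, unlimited word
length).  A query names `k` sets, reads cells adaptively and decides whether the `k` sets have a
common element, by a condition which is nondecreasing in the contents of the memory.  The data
structure may be random: every answer is correct with probability at least `1 / 2 + δ`, and if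
there is no common element then the expected number of cells read is at most `t`.

Then `s ≥ δ * (δ * N / (20 * k ^ 3 * t * log₂ (N / δ))) ^ k`.  In particular constant query time
needs space `Ω~(N ^ k)`, as conjectured, and for every query time `t` the known upper bound
`O ((N / t) ^ k)` is optimal up to logarithms in this model.

Proof.  Let `m = k h` and let the queries take one of `h` sets in each of the `k` parts.  The true
inputs of a query and an element `e` are: its `k` sets are `{e}`, all other sets are empty.  The
false inputs are random: all other sets are the whole universe, every element is missing from
exactly one (random) of the `k` sets.  If the answer is positive on the true input of `e` and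
negative on the false input `y`, then one of the cells read on `y` is larger on the true input than
on `y`; it *serves* `e`.  Fix a cell, and let its owner be the query for which the `L`-th largest of
the values of the cell on the true inputs is the largest.  For any other query, each of the `L`
elements `e'` with the largest values for the owner is good with probability at least `1 / k`: the
true input of the owner for `e'` lies below the false input; then the cell serves fewer than `L`
elements.  So, if `n` is a large constant times `k t L / δ`, every query must own a cell (on the
average over the random structures at least `δ` cells), and every cell has only one owner.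
-/

namespace Pool.Agent.Results.MP_d985bf_lc.AdaptiveMonotone

open Pool.Agent.H525R4.Mono

/-- For all `N ≥ k ≥ 2` and all `t ≥ 1` there are `m` and `n` with `m * n ≤ N` such that every
randomised monotone data structure which solves `k`-SetDisjointness with advantage `δ` and `t`
probes on the families of `m` subsets of a universe with `n` elements has at least
`δ * (δ * N / (20 * k ^ 3 * t * log₂ (N / δ))) ^ k` cells. -/
theorem result (k N : ℕ) (hk : 2 ≤ k) (hkN : k ≤ N) (δ t : ℝ) (hδ : 0 < δ) (hδ2 : δ ≤ 1 / 2)
    (ht : 1 ≤ t) :
    ∃ m n : ℕ, m * n ≤ N ∧ ∀ (s : ℕ) (Ω : Type) [Fintype Ω] (p : Ω → ℝ)
      (D : Ω → DisjDS k m n s), DisjSolves p D δ t →
        δ * (δ * N / (20 * k ^ 3 * t * Real.logb 2 (N / δ))) ^ k ≤ s :=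
  disj_lower hk hkN hδ hδ2 ht

end Pool.Agent.Results.MP_d985bf_lc.AdaptiveMonotone
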