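import Pool.Agent.H447R2.CP.Final

/-!
# Unconditional space lower bound for `k`-SetDisjointness with `t` probes

In the cell-probe model (memory of `S` cells of `w` bits, computation free and non-uniform,
adaptive probes, `H447CP.PTree`), a structure for `k`-SetDisjointness reading at most `t` cells
on tuples with empty intersection has `S ≥ N ^ (1 + (k - 1) / t) / (log N) ^ c`, for all
`1 ≤ t ≤ (log N) / 2` and `w ≤ (log N) ^ a`, where `c` depends on `k` and `a` only.
-/

namespace Pool.Agent.Results.MP_d985bf_lc.CellProbeBound

open H447CP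

/-- A cell-probe data structure for families of `m` subsets of a universe of `u` elements:
the memory (`S` cells of `w` bits) may depend on the family in an arbitrary way, and a query
names `k` members of the family and is answered by an adaptive decision tree reading cells;
the answer `true` stands for an empty intersection. -/
structure Oracle (k m u w S : ℕ) where
  store : (Fin m → Finset (Fin u)) → Fin S → Fin (2 ^ w)
  query : (Fin k → Fin m) → PTree S (Fin (2 ^ w)) Bool

/-- The structure is correct on all families of nonempty sets of total size exactly `N`, and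
reads at most `t` cells for every query whose `k` sets have empty intersection (no bound on the
number of probes is required for the other queries). -/
def Oracle.Solves {k m u w S : ℕ} (D : Oracle k m u w S) (N t : ℕ) : Prop :=
  ∀ F : Fin m → Finset (Fin u), (∀ i, (F i).Nonempty) → ∑ i, (F i).card = N →
    ∀ v : Fin k → Fin m,
      ((D.query v).run (D.store F) = true ↔ ∀ y, ∃ a, y ∉ F (v a)) ∧
      ((∀ y, ∃ a, y ∉ F (v a)) → (D.query v).cost (D.store F) ≤ t)

/-- **Main theorem.** -/
theorem result (k a : ℕ) (hk : 2 ≤ k) : ∃ c N₀ : ℕ, ∀ N t w : ℕ, N₀ ≤ N → 1 ≤ t →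
    (t : ℝ) ≤ Real.log N / 2 → (w : ℝ) ≤ (Real.log N) ^ a →
    ∃ m ≤ N, ∀ (S : ℕ) (D : Oracle k m N w S), D.Solves N t →
      (N : ℝ) ^ (1 + ((k : ℝ) - 1) / t) / (Real.log N) ^ c ≤ S := by
  obtain ⟨c, N₀, h⟩ := disjointness_bound k a hk
  refine ⟨c, N₀, fun N t w hN ht htx hwx => ?_⟩
  obtain ⟨m, hm, hS⟩ := h N t w hN ht htx hwx
  exact ⟨m, hm, fun S D hD => hS S D.store D.query hD⟩

end Pool.Agent.Results.MP_d985bf_lc.CellProbeBound
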